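import Pool.Agent.Helper1.RK.StA

/-!
# Project RK, module FIN: functions without poles are polynomials; finiteness
-/

set_option autoImplicit false

namespace Pool.Agent.Helper40.RK

open Polynomial Pool.Agent.Helper1.RK

/-- the points of nonzero multiplicity of a polynomial form a finite set -/
lemma finite_mult {L : Type} [Field L] (P : L[X]) :
    {p : L | P.rootMultiplicity p ≠ 0}.Finite := by
  classical
  refine (P.roots.toFinset.finite_toSet).subset ?_
  intro p hp
  have h : P.roots.count p ≠ 0 := by rw [count_roots]; exact hp
  simpa using (Multiset.count_ne_zero.1 h)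

/-- MODULE FIN. -/
theorem pFIN (_h1 : StORD) (_h2 : StREG) : StFIN := by
  intro L _ _
  refine ⟨?_, ?_, ?_⟩
  · intro g hg
    have hdeg : g.denom.degree = 0 := by
      by_contra h
      obtain ⟨p, hp⟩ := IsAlgClosed.exists_root g.denom h
      exact hg p hp
    have h1 : g.denom = 1 := by
      refine (RatFunc.monic_denom g).natDegree_eq_zero.1 ?_
      exact natDegree_eq_zero_iff_degree_le_zero.2 hdeg.le
    refine ⟨g.num, ?_⟩
    have h2 := RatFunc.num_div_denom g
    rw [h1, map_one, div_one] at h2
    exact h2.symm
  · intro g
    have h0 : g.denom ≠ 0 := RatFunc.denom_ne_zero g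
    refine (finite_mult g.denom).subset ?_
    intro p hp
    have h3 : g.denom.eval p = 0 := by
      by_contra h
      exact hp h
    have h4 : 0 < g.denom.rootMultiplicity p := (rootMultiplicity_pos h0).2 h3
    exact h4.ne'
  · intro g
    refine ((finite_mult g.num).union (finite_mult g.denom)).subset ?_
    intro p hp
    by_contra h
    simp only [Set.mem_union, Set.mem_ofPred_eq, not_or, not_not] at h
    apply hp
    unfold ord
    rw [h.1, h.2]
    simp

end Pool.Agent.Helper40.RK
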